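import Pool.Agent.AT3.Stmts2

/-!
# Squad AT3, row LCJ: conjugation of `(V, γ)`
-/

open scoped BigOperators

noncomputable section

namespace Pool.Agent.PP.T3.H62

open Pool.Agent.Helper51_AWC Pool.Agent.Helper79_WRA Pool.Agent.PP Pool.Agent.PP.KF
open Pool.Agent.PP.K9 Pool.Agent.PP.K9.H97 Pool.Agent.PP.H75

attribute [local instance] Ideal.Quotient.field

section conj

variable {F G : Type} [Field F] [Group G] [Finite G]

omit [Finite G] in
theorem mem_conjS {g : G} {P : Subgroup G} {x : G} : x ∈ conjS g P ↔ g⁻¹ * x * g ∈ P := by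
  rw [conjS, Subgroup.mem_map]
  constructor
  · rintro ⟨y, hy, rfl⟩
    have : g⁻¹ * ((MulAut.conj g).toMonoidHom y) * g = y := by
      simp [mul_assoc]
    rw [this]
    exact hy
  · intro h
    exact ⟨_, h, by simp [mul_assoc]⟩

theorem ix_cj {X X' : Subgroup G} {b : G → F} {g : G} (hX : ∀ x, x ∈ X' ↔ g⁻¹ * x * g ∈ X)
    (h : Ix X b) : Ix X' (cj g b) := by
  have hs : ∀ x, x ∉ X' → H75.cj g b x = 0 := by
    intro x hx
    apply h.supp
    rwa [← hX]
  refine ⟨hs, ?_, ?_⟩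
  · intro x y
    change b (g⁻¹ * ((y : G) * x * (y : G)⁻¹) * g) = b (g⁻¹ * x * g)
    have hy : g⁻¹ * (y : G) * g ∈ X := (hX _).1 y.2
    have h2 := (cj_eq_iff _ _).1 (h.inv hy) (g⁻¹ * x * g)
    rw [← h2]
    congr 1
    group
  · rw [← mulF_res X' (H75.cj g b) hs, ← cj_mulF, h.mul]

theorem bx_cj {X X' : Subgroup G} {b : G → F} {g : G} (hX : ∀ x, x ∈ X' ↔ g⁻¹ * x * g ∈ X)
    (h : Bx X b) : Bx X' (cj g b) := by
  have hX' : ∀ x, x ∈ X ↔ g⁻¹⁻¹ * x * g⁻¹ ∈ X' := by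
    intro x
    rw [hX]
    have e : g⁻¹ * (g⁻¹⁻¹ * x * g⁻¹) * g = x := by group
    rw [e]
  have h1 := ix_cj hX h.ix
  refine ⟨h1.supp, h1.idem, ?_, ?_⟩
  · intro h0
    apply h.ne
    have h2 : H75.cj g b = 0 := eq_of_res h1.supp (fun _ _ => rfl) h0
    have h3 := congrArg (H75.cj g⁻¹) h2
    rw [cj_inv_cj, cj_zero] at h3
    exact h3
  · intro a ha
    have hax : Ix X' (H75.ext0 X' a) := by
      refine ⟨ext0_supp X' a, ?_⟩
      have : (fun t : X' => H75.ext0 X' a t) = a := funext (ext0_apply X' a)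
      rw [this]
      exact ha
    have h2 := ix_cj hX' hax
    have h4 : mulF (fun t : X' => H75.cj g b t) a =
        fun t : X' => mulF (H75.cj g b) (H75.ext0 X' a) t := by
      rw [mulF_res X' _ h1.supp]
      congr 1
      exact (funext (ext0_apply X' a)).symm
    rw [h4]
    have h5 : mulF (H75.cj g b) (H75.ext0 X' a) =
        H75.cj g (mulF b (H75.cj g⁻¹ (H75.ext0 X' a))) := by
      rw [cj_mulF, cj_cj_inv]
    rcases h.dich' h2 with h3 | h3
    · left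
      rw [h5, h3]
    · right
      rw [h5, h3, cj_zero]
      rfl

omit [Finite G] in
theorem mem_cent_conjS {g : G} {V : Subgroup G} (x : G) :
    x ∈ Subgroup.centralizer (conjS g V : Set G) ↔
      g⁻¹ * x * g ∈ Subgroup.centralizer (V : Set G) := by
  rw [Subgroup.mem_centralizer_iff, Subgroup.mem_centralizer_iff]
  constructor
  · intro h v hv
    have h1 : g * v * g⁻¹ ∈ conjS g V := by
      rw [mem_conjS]
      have e : g⁻¹ * (g * v * g⁻¹) * g = v := by group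
      rw [e]
      exact hv
    have h2 := h _ h1
    have h3 : g⁻¹ * (g * v * g⁻¹ * x) * g = g⁻¹ * (x * (g * v * g⁻¹)) * g := by rw [h2]
    have e1 : g⁻¹ * (g * v * g⁻¹ * x) * g = v * (g⁻¹ * x * g) := by group
    have e2 : g⁻¹ * (x * (g * v * g⁻¹)) * g = g⁻¹ * x * g * v := by group
    rw [e1, e2] at h3
    exact h3
  · intro h v hv
    have h1 : g⁻¹ * v * g ∈ V := mem_conjS.1 hv
    have h2 := h _ h1
    have h3 : g * (g⁻¹ * v * g * (g⁻¹ * x * g)) * g⁻¹ = g * (g⁻¹ * x * g * (g⁻¹ * v * g)) * g⁻¹ := by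
      rw [h2]
    have e1 : g * (g⁻¹ * v * g * (g⁻¹ * x * g)) * g⁻¹ = v * x := by group
    have e2 : g * (g⁻¹ * x * g * (g⁻¹ * v * g)) * g⁻¹ = x * v := by group
    rw [e1, e2] at h3
    exact h3

omit [Finite G] in
theorem cent_conjS (g : G) (V : Subgroup G) :
    Subgroup.centralizer (conjS g V : Set G) = conjS g (Subgroup.centralizer (V : Set G)) := by
  ext x
  rw [mem_cent_conjS, mem_conjS]

omit [Finite G] in
theorem conjS_mem_iff {g : G} {V : Subgroup G} (x : G) : g * x * g⁻¹ ∈ conjS g V ↔ x ∈ V := by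
  rw [mem_conjS]
  have e : g⁻¹ * (g * x * g⁻¹) * g = x := by group
  rw [e]

omit [Finite G] in
theorem mem_norm_conjS {g : G} {V : Subgroup G} (x : G) :
    x ∈ Subgroup.normalizer (conjS g V : Set G) ↔
      g⁻¹ * x * g ∈ Subgroup.normalizer (V : Set G) := by
  rw [Subgroup.mem_normalizer_iff, Subgroup.mem_normalizer_iff]
  constructor
  · intro h v
    have h1 := h (g * v * g⁻¹)
    rw [conjS_mem_iff, mem_conjS] at h1
    rw [h1]
    have e : g⁻¹ * (x * (g * v * g⁻¹) * x⁻¹) * g = g⁻¹ * x * g * v * (g⁻¹ * x * g)⁻¹ := by group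
    rw [e]
  · intro h v
    have h1 := h (g⁻¹ * v * g)
    rw [mem_conjS, mem_conjS, h1]
    have e : g⁻¹ * (x * v * x⁻¹) * g = g⁻¹ * x * g * (g⁻¹ * v * g) * (g⁻¹ * x * g)⁻¹ := by group
    rw [e]

omit [Finite G] in
theorem mem_stabF_cj {g : G} {γ : G → F} (x : G) :
    x ∈ stabF (cj g γ) ↔ g⁻¹ * x * g ∈ stabF γ := by
  constructor
  · intro h y
    have h1 := h (g * y * g⁻¹)
    change γ (g⁻¹ * (x * (g * y * g⁻¹) * x⁻¹) * g) = γ (g⁻¹ * (g * y * g⁻¹) * g) at h1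
    have e1 : g⁻¹ * (x * (g * y * g⁻¹) * x⁻¹) * g = g⁻¹ * x * g * y * (g⁻¹ * x * g)⁻¹ := by group
    have e2 : g⁻¹ * (g * y * g⁻¹) * g = y := by group
    rw [e1, e2] at h1
    exact h1
  · intro h y
    have h1 : γ (g⁻¹ * x * g * (g⁻¹ * y * g) * (g⁻¹ * x * g)⁻¹) = γ (g⁻¹ * y * g) :=
      h (g⁻¹ * y * g)
    change γ (g⁻¹ * (x * y * x⁻¹) * g) = γ (g⁻¹ * y * g)
    rw [← h1]
    congr 1
    group

omit [Finite G] in
theorem tg_conjS (g : G) (V : Subgroup G) (γ : G → F) :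
    Tg (conjS g V) (cj g γ) = conjS g (Tg V γ) := by
  ext x
  rw [mem_conjS, Tg, Tg, Subgroup.mem_inf, Subgroup.mem_inf, mem_norm_conjS, mem_stabF_cj]

omit [Finite G] in
theorem card_conjS' (g : G) (P : Subgroup G) : Nat.card (conjS g P) = Nat.card P :=
  (Nat.card_congr (conjSEquiv g P).toEquiv).symm

omit [Finite G] in
theorem br_cj (g : G) (V : Subgroup G) {e : G → F} (he : IsCl e) :
    br (conjS g V) e = cj g (br V e) := by
  classical
  funext x
  change _ = br V e (g⁻¹ * x * g)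
  unfold br
  by_cases h : x ∈ Subgroup.centralizer (conjS g V : Set G)
  · rw [if_pos h, if_pos ((mem_cent_conjS x).1 h)]
    have := he x g⁻¹
    rw [inv_inv] at this
    exact this.symm
  · rw [if_neg h, if_neg (fun h' => h ((mem_cent_conjS x).2 h'))]

end conj

/-- LCJ: conjugation of `(V, γ)`. -/
theorem lcj : LcjStmt := by
  intro ℓ _ F _ hF G _ _ e V γ h g
  refine ⟨⟨h.blk, ⟨?_, ?_, ?_⟩, ?_, ?_, ?_⟩, ?_⟩
  · exact h.tp.pg.map _
  · obtain ⟨x, hx, hex⟩ := h.tp.gd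
    refine ⟨g * x * g⁻¹, ?_, ?_⟩
    · rw [mem_cent_conjS]
      have e1 : g⁻¹ * (g * x * g⁻¹) * g = x := by group
      rw [e1]
      exact hx
    · rw [h.blk.1.1 x g]
      exact hex
  · intro Q hQ hg
    rw [card_conjS']
    exact h.tp.mx Q hQ hg
  · intro a ha b hb
    have h1 := h.ab _ (mem_conjS.1 ha) _ (mem_conjS.1 hb)
    have h2 : g * (g⁻¹ * a * g * (g⁻¹ * b * g)) * g⁻¹ = g * (g⁻¹ * b * g * (g⁻¹ * a * g)) * g⁻¹ := by
      rw [h1]
    have e1 : g * (g⁻¹ * a * g * (g⁻¹ * b * g)) * g⁻¹ = a * b := by group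
    have e2 : g * (g⁻¹ * b * g * (g⁻¹ * a * g)) * g⁻¹ = b * a := by group
    rw [e1, e2] at h2
    exact h2
  · exact bx_cj (fun x => mem_cent_conjS x) h.gam
  · rw [br_cj g V h.blk.1.1, ← cj_mulF, h.und]
  · unfold ix
    rw [cent_conjS, tg_conjS]
    exact Subgroup.relIndex_map_map_of_injective _ _ (MulAut.conj g).injective

end Pool.Agent.PP.T3.H62
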