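import Pool.Agent.AT3.Stmts1
import Pool.Agent.Helper77_KF.Trc
import Pool.Agent.Helper25_KF.Idm
import Pool.Agent.Helper3_K9.Psi
import Pool.Agent.Helper82_K9.WBO
import Pool.Agent.Helper82_K9.TRB
import Pool.Agent.Helper53_K9.Tra
import Pool.Agent.Helper10_K9.SM2
import Pool.Agent.Helper25_K9.PRG
import Pool.Agent.Helper27_K9.PRT

/-!
# Squad AT3, row CO2: orthogonality of `χ(u b^)` and `χ(u' b'^)`
-/

open scoped BigOperators

noncomputable section

namespace Pool.Agent.PP.T3.H62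

open Pool.Agent.Helper51_AWC Pool.Agent.Helper79_WRA Pool.Agent.PP Pool.Agent.PP.KF
open Pool.Agent.PP.K9 Pool.Agent.PP.K9.H97 Pool.Agent.PP.H75

attribute [local instance] Ideal.Quotient.field

theorem wbo_ : WboStmt := H82W.wbo (H82.trb H53.tra)

section orth

variable {M : Ideal (integralClosure ℤ ℂ)} [M.IsMaximal]

/-- the lifts of orthogonal idempotents are orthogonal -/
theorem eh_orth {G : Type} [Group G] [Finite G] {e e' : G → FF M} (he : IsIdem e)
    (he' : IsIdem e') (h : mulF e e' = 0) : mulF (eh M e) (eh M e') = 0 := by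
  have := Fintype.ofFinite G
  apply KF.H25.ext_om
  · intro x y
    exact H50.isCl_mulF (KF.H25.eh_idem e).1 (KF.H25.eh_idem e').1 x y
  · intro x y
    rfl
  · intro χ hχ
    have h0 : H50.om (0 : G → ℂ) χ = 0 := by
      unfold H50.om
      simp
    rw [h0, KF.H25.mulF_eq, H50.om_mul (KF.H25.eh_cl e') hχ]
    by_cases h1 : χ ∈ IrrE M e
    · by_cases h2 : χ ∈ IrrE M e'
      · exfalso
        have h3 := H50.res_mul (M := M) he.1 he'.1 hχ
        rw [h, H50.res_zero, h1.2, h2.2, one_mul] at h3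
        exact zero_ne_one h3
      · rw [(KF.H25.eh_om e' hχ).2 h2, mul_zero]
    · rw [(KF.H25.eh_om e hχ).2 h1, zero_mul]

/-- transport of the lift along an isomorphism -/
theorem eh_equiv {A B : Type} [Group A] [Finite A] [Group B] [Finite B] (φ : A ≃* B)
    {b : A → FF M} (hb : IsCl b) (a : A) :
    eh M (fun y => b (φ.symm y)) (φ a) = eh M b a := by
  classical
  have hp : H75.push φ.toMonoidHom b = fun y => b (φ.symm y) := by
    funext y
    unfold H75.push
    rw [finsum_eq_single _ (φ.symm y)]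
    · rw [finsum_eq_if]
      have : φ.toMonoidHom (φ.symm y) = y := φ.apply_symm_apply y
      rw [if_pos this]
    · intro x hx
      rw [finsum_eq_if, if_neg]
      intro h
      apply hx
      rw [← h]
      exact (φ.symm_apply_apply x).symm
  have h1 := (H3.psi M A B φ.toMonoidHom φ.surjective b hb).1
  rw [hp] at h1
  unfold eh
  rw [← Nat.card_congr φ.toEquiv]
  congr 1
  refine finsum_mem_eq_of_bijOn (fun (θ : B → ℂ) => fun a : A => θ (φ a)) ⟨?_, ?_, ?_⟩ ?_
  · intro θ hθ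
    rw [h1] at hθ
    exact hθ.2
  · intro θ _ θ' _ h
    funext y
    have := congrFun h (φ.symm y)
    simp only [MulEquiv.apply_symm_apply] at this
    exact this
  · intro κ hκ
    refine ⟨fun y => κ (φ.symm y), ?_, ?_⟩
    · rw [h1]
      refine ⟨H3.irr_infl (p := φ.symm.toMonoidHom) φ.symm.surjective hκ.1, ?_⟩
      have e1 : (fun a : A => κ (φ.symm (φ.toMonoidHom a))) = κ := by
        funext a
        change κ (φ.symm (φ a)) = κ a
        rw [φ.symm_apply_apply]
      change (fun a : A => κ (φ.symm (φ.toMonoidHom a))) ∈ IrrE M b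
      rw [e1]
      exact hκ
    · funext a
      change κ (φ.symm (φ a)) = κ a
      rw [φ.symm_apply_apply]
  · intro θ _
    change θ 1 * θ (φ a)⁻¹ = θ (φ 1) * θ (φ a⁻¹)
    rw [map_one, map_inv]

end orth

section main

variable {G : Type} [Group G] [Finite G]

omit [Finite G] in
theorem comm_Cu {u s : G} (hs : s ∈ Cu u) : Commute s u :=
  Subgroup.mem_centralizer_singleton_iff.1 hs

/-- conjugation `C(u') → C(u)` -/
def cjE {u u' x : G} (hx : x * u' * x⁻¹ = u) : Cu u' ≃* Cu u where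
  toFun c := ⟨x * c * x⁻¹, by
    rw [Subgroup.mem_centralizer_singleton_iff, ← hx]
    have h : (c : G) * u' = u' * c := comm_Cu c.2
    calc x * (c : G) * x⁻¹ * (x * u' * x⁻¹) = x * ((c : G) * u') * x⁻¹ := by group
      _ = x * (u' * c) * x⁻¹ := by rw [h]
      _ = x * u' * x⁻¹ * (x * c * x⁻¹) := by group⟩
  invFun c := ⟨x⁻¹ * c * x, by
    have hx' : u' = x⁻¹ * u * x := by rw [← hx]; group
    rw [Subgroup.mem_centralizer_singleton_iff, hx']
    have h : (c : G) * u = u * c := comm_Cu c.2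
    calc x⁻¹ * (c : G) * x * (x⁻¹ * u * x) = x⁻¹ * ((c : G) * u) * x := by group
      _ = x⁻¹ * (u * c) * x := by rw [h]
      _ = x⁻¹ * u * x * (x⁻¹ * c * x) := by group⟩
  left_inv c := Subtype.ext (by
    change x⁻¹ * (x * (c : G) * x⁻¹) * x = c
    group)
  right_inv c := Subtype.ext (by
    change x * (x⁻¹ * (c : G) * x) * x⁻¹ = c
    group)
  map_mul' c d := Subtype.ext (by
    change x * ((c : G) * d) * x⁻¹ = x * c * x⁻¹ * (x * d * x⁻¹)
    group)

theorem reg_coe {ℓ : ℕ} {C : Subgroup G} {s : C} (hs : Reg ℓ s) : Reg ℓ (s : G) := by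
  unfold Reg at hs ⊢
  rwa [Subgroup.orderOf_coe]

/-- CO2: orthogonality. -/
theorem co2 : Co2Stmt := by
  intro ℓ hℓ M _ hM G _ _ u u' hu hu' b b' hb hb' hcon
  classical
  have := Fintype.ofFinite G
  -- the two elements of the group ring
  obtain ⟨B, hB⟩ : ∃ B : G → ℂ, B = H75.ext0 (Cu u) (eh M (fun t : Cu u => b t)) := ⟨_, rfl⟩
  obtain ⟨B', hB'⟩ : ∃ B' : G → ℂ, B' = H75.ext0 (Cu u') (eh M (fun t : Cu u' => b' t)) :=
    ⟨_, rfl⟩
  have sumext : ∀ (C : Subgroup G) (f : C → ℂ) (h : G → ℂ),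
      ∑ᶠ c : C, f c * h c = ∑ g : G, H75.ext0 C f g * h g := by
    intro C f h
    have := Fintype.ofFinite C
    rw [finsum_eq_sum_of_fintype]
    have h1 : ∀ g : G, H75.ext0 C f g * h g = ∑ c : C, if (c : G) = g then f c * h c else 0 := by
      intro g
      by_cases hg : g ∈ C
      · rw [Finset.sum_eq_single (⟨g, hg⟩ : C)]
        · rw [if_pos rfl, H75.ext0, dif_pos hg]
        · intro c _ hc
          rw [if_neg]
          intro h'
          exact hc (Subtype.ext h')
        · intro h'; exact absurd (Finset.mem_univ _) h'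
      · rw [H75.ext0, dif_neg hg, zero_mul, Finset.sum_eq_zero]
        intro c _
        rw [if_neg]
        intro h'
        exact hg (h' ▸ c.2)
    rw [Finset.sum_congr rfl (fun g _ => h1 g), Finset.sum_comm]
    refine Finset.sum_congr rfl fun c _ => ?_
    simp
  -- regularity of the support
  have hreg : ∀ g, B g ≠ 0 → g ∈ Cu u ∧ Reg ℓ g := by
    intro g hg
    rw [hB] at hg
    by_cases h : g ∈ Cu u
    · refine ⟨h, ?_⟩
      have := Fintype.ofFinite (Cu u)
      by_contra hcon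
      apply hg
      rw [H75.ext0, dif_pos h]
      exact H25.eh_sing wbo_ ℓ M hM _ hb.idem ⟨g, h⟩ (fun hr => hcon (reg_coe hr))
    · exact absurd (H75.ext0_supp _ _ g h) hg
  have hreg' : ∀ g, B' g ≠ 0 → g ∈ Cu u' ∧ Reg ℓ g := by
    intro g hg
    rw [hB'] at hg
    by_cases h : g ∈ Cu u'
    · refine ⟨h, ?_⟩
      have := Fintype.ofFinite (Cu u')
      by_contra hcon
      apply hg
      rw [H75.ext0, dif_pos h]
      exact H25.eh_sing wbo_ ℓ M hM _ hb'.idem ⟨g, h⟩ (fun hr => hcon (reg_coe hr))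
    · exact absurd (H75.ext0_supp _ _ g h) hg
  -- the values
  have e1 : ∀ χ : G → ℂ, gv M (Cu u) u b χ = chv (fun g => B (u⁻¹ * g)) χ := by
    intro χ
    change (∑ᶠ c : Cu u, eh M (fun t : Cu u => b t) c * χ (u * c)) = ∑ᶠ g, B (u⁻¹ * g) * χ g
    rw [sumext (Cu u) (eh M (fun t : Cu u => b t)) (fun g => χ (u * g)), finsum_eq_sum_of_fintype,
      ← Equiv.sum_comp (Equiv.mulLeft u) (fun g => B (u⁻¹ * g) * χ g), hB]
    refine Finset.sum_congr rfl fun g _ => ?_
    simp only [Equiv.coe_mulLeft, inv_mul_cancel_left]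
  have e2 : ∀ χ ∈ Irr G, starRingEnd ℂ (gv M (Cu u') u' b' χ) =
      chv (fun g => B' (u' * g)) χ := by
    intro χ hχ
    change starRingEnd ℂ (∑ᶠ c : Cu u', eh M (fun t : Cu u' => b' t) c * χ (u' * c)) =
      ∑ᶠ g, B' (u' * g) * χ g
    have := Fintype.ofFinite (Cu u')
    rw [finsum_eq_sum_of_fintype, map_sum, ← Equiv.sum_comp (Equiv.inv (Cu u'))]
    have e3 : ∀ c : Cu u', starRingEnd ℂ (eh M (fun t : Cu u' => b' t) ((Equiv.inv (Cu u')) c) *
        χ (u' * (((Equiv.inv (Cu u')) c : Cu u') : G))) =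
        eh M (fun t : Cu u' => b' t) c * χ (u'⁻¹ * c) := by
      intro c
      rw [map_mul, H10.eh_conj, H94.irr_star hχ]
      have e4 : (u' * (((Equiv.inv (Cu u')) c : Cu u') : G))⁻¹ = u'⁻¹ * c := by
        have h1 : ((((Equiv.inv (Cu u')) c : Cu u') : G)) = (c : G)⁻¹ := rfl
        rw [h1, mul_inv_rev, inv_inv]
        exact ((comm_Cu c.2).inv_right).eq
      have e5 : ((Equiv.inv (Cu u')) c)⁻¹ = c := by
        change (c⁻¹)⁻¹ = c
        rw [inv_inv]
      rw [e4, e5]
    rw [Finset.sum_congr rfl (fun c _ => e3 c), ← finsum_eq_sum_of_fintype,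
      sumext (Cu u') (eh M (fun t : Cu u' => b' t)) (fun g => χ (u'⁻¹ * g)),
      finsum_eq_sum_of_fintype,
      ← Equiv.sum_comp (Equiv.mulLeft u'⁻¹) (fun g => B' (u' * g) * χ g), hB']
    refine Finset.sum_congr rfl fun g _ => ?_
    simp only [Equiv.coe_mulLeft, mul_inv_cancel_left]
  have e6 : ∑ᶠ χ ∈ Irr G, gv M (Cu u) u b χ * starRingEnd ℂ (gv M (Cu u') u' b' χ) =
      ∑ᶠ χ ∈ Irr G, chv (fun g => B (u⁻¹ * g)) χ * chv (fun g => B' (u' * g)) χ := by
    refine finsum_mem_congr rfl fun χ hχ => ?_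
    rw [e1, e2 χ hχ]
  rw [e6, Pool.Agent.PP.KF.trc]
  -- parts
  obtain ⟨N, -, hN⟩ := H27.prt ℓ G
  refine finsum_eq_zero_of_forall_eq_zero fun x => ?_
  by_cases hx : x * u' * x⁻¹ = u
  · -- the lift of the product
    have h0 := hcon x hx
    let φ := cjE hx
    have hcx : ∀ z, z ∈ Cu u ↔ x⁻¹ * z * x ∈ Cu u' := by
      intro z
      constructor
      · intro hz
        exact (φ.symm ⟨z, hz⟩).2
      · intro hz
        have h1 := (φ ⟨x⁻¹ * z * x, hz⟩).2
        change x * (x⁻¹ * z * x) * x⁻¹ ∈ Cu u at h1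
        have h2 : x * (x⁻¹ * z * x) * x⁻¹ = z := by group
        rwa [h2] at h1
    have hB0 : mulF B (H75.cj x B') = 0 := by
      have hs1 : ∀ z, z ∉ Cu u → B z = 0 := by
        rw [hB]; exact H75.ext0_supp _ _
      have hs2 : ∀ z, z ∉ Cu u → H75.cj x B' z = 0 := by
        intro z hz
        change B' (x⁻¹ * z * x) = 0
        rw [hB']
        apply H75.ext0_supp
        intro h
        exact hz ((hcx z).2 h)
      apply eq_of_res (mulF_supp (Cu u) hs1 hs2) (fun _ _ => rfl)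
      rw [mulF_res (Cu u) _ hs1]
      have h1 : (fun t : Cu u => B t) = eh M (fun t : Cu u => b t) := by
        rw [hB]
        exact funext (H75.ext0_apply _ _)
      have h2 : (fun t : Cu u => H75.cj x B' t) = eh M (fun t : Cu u => H75.cj x b' t) := by
        funext t
        have h3 := eh_equiv (M := M) φ hb'.idem.1 (φ.symm t)
        rw [φ.apply_symm_apply] at h3
        have h4 : (fun y : Cu u => b' ((φ.symm y : Cu u') : G)) =
            fun t : Cu u => H75.cj x b' t := rfl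
        rw [h4] at h3
        rw [h3]
        change B' (x⁻¹ * (t : G) * x) = _
        rw [hB']
        exact H75.ext0_apply (Cu u') _ (φ.symm t)
      rw [h1, h2]
      have h5 : IsIdem (fun t : Cu u => H75.cj x b' t) := by
        refine ⟨?_, ?_⟩
        · intro z y
          change b' (x⁻¹ * ((y : G) * z * (y : G)⁻¹) * x) = b' (x⁻¹ * z * x)
          have h6 := hb'.idem.1 (φ.symm z) (φ.symm y)
          have h7 : ((φ.symm y * φ.symm z * (φ.symm y)⁻¹ : Cu u') : G) =
              x⁻¹ * ((y : G) * z * (y : G)⁻¹) * x := by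
            rw [← map_inv, ← map_mul, ← map_mul]
            rfl
          change b' ((φ.symm y * φ.symm z * (φ.symm y)⁻¹ : Cu u') : G) = b' (x⁻¹ * z * x) at h6
          rw [h7] at h6
          exact h6
        · have hs3 : ∀ z, z ∉ Cu u → H75.cj x b' z = 0 := by
            intro z hz
            change b' (x⁻¹ * z * x) = 0
            apply hb'.supp
            intro h
            exact hz ((hcx z).2 h)
          rw [← mulF_res (Cu u) (H75.cj x b') hs3, ← cj_mulF, hb'.mul]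
      have h6 : mulF (fun t : Cu u => b t) (fun t : Cu u => H75.cj x b' t) = 0 := by
        rw [← mulF_res (Cu u) (H75.cj x b') hb.supp, h0]
        rfl
      exact eh_orth hb.idem h5 h6
    have h1 := congrFun hB0 1
    change (∑ᶠ t, B t * B' (x⁻¹ * (t⁻¹ * 1) * x)) = 0 at h1
    rw [finsum_eq_sum_of_fintype] at h1 ⊢
    rw [← h1, ← Equiv.sum_comp (Equiv.mulLeft u)
      (fun g => B (u⁻¹ * g) * B' (u' * (x⁻¹ * g⁻¹ * x)))]
    refine Finset.sum_congr rfl fun g _ => ?_
    simp only [Equiv.coe_mulLeft, inv_mul_cancel_left, mul_one]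
    by_cases hg : B g = 0
    · rw [hg, zero_mul, zero_mul]
    · congr 2
      have h2 : Commute g u := comm_Cu (hreg g hg).1
      have h3 : u' = x⁻¹ * u * x := by rw [← hx]; group
      rw [h3, h2.symm.eq, mul_inv_rev]
      group
  · refine finsum_eq_zero_of_forall_eq_zero fun g => ?_
    by_contra hne
    have h1 : B (u⁻¹ * g) ≠ 0 := left_ne_zero_of_mul hne
    have h2 : B' (u' * (x⁻¹ * g⁻¹ * x)) ≠ 0 := right_ne_zero_of_mul hne
    obtain ⟨s, hs⟩ : ∃ s, s = u⁻¹ * g := ⟨_, rfl⟩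
    obtain ⟨s', hs'⟩ : ∃ s', s' = u' * (x⁻¹ * g⁻¹ * x) := ⟨_, rfl⟩
    rw [← hs] at h1
    rw [← hs'] at h2
    obtain ⟨hsC, hsR⟩ := hreg s h1
    obtain ⟨hsC', hsR'⟩ := hreg' s' h2
    have hg : g = u * s := by rw [hs]; group
    -- `x⁻¹ (s⁻¹ u⁻¹) x = u'⁻¹ s'`
    have h3 : x⁻¹ * (s⁻¹ * u⁻¹) * x = s' * u'⁻¹ := by
      have h4 : Commute s' u'⁻¹ := (comm_Cu hsC').inv_right
      rw [h4.eq, hs', hg, mul_inv_rev]
      group
    have hsi : Reg ℓ s⁻¹ := by
      unfold Reg at hsR ⊢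
      rwa [orderOf_inv]
    have hinv : ∀ {y : G}, El ℓ y → ∃ n : ℕ, (y⁻¹) ^ ℓ ^ n = 1 := by
      rintro y ⟨n, hn⟩
      exact ⟨n, by rw [inv_pow, hn, inv_one]⟩
    have k1 : (s⁻¹ * u⁻¹) ^ N = s⁻¹ :=
      hN s⁻¹ u⁻¹ (comm_Cu hsC).inv_inv hsi (hinv hu)
    have k2 : (s' * u'⁻¹) ^ N = s' :=
      hN s' u'⁻¹ (comm_Cu hsC').inv_right hsR' (hinv hu')
    have h5 : x⁻¹ * s⁻¹ * x = s' := by
      rw [← k2, ← h3]
      have h6 : x⁻¹ * (s⁻¹ * u⁻¹) * x = x⁻¹ * (s⁻¹ * u⁻¹) * (x⁻¹)⁻¹ := by group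
      rw [h6, conj_pow, k1]
      group
    apply hx
    have h7 : x⁻¹ * (s⁻¹ * u⁻¹) * x = (x⁻¹ * s⁻¹ * x) * (x⁻¹ * u⁻¹ * x) := by group
    rw [h7, h5] at h3
    have h8 : x⁻¹ * u⁻¹ * x = u'⁻¹ := mul_left_cancel h3
    have h9 : u' = x⁻¹ * u * x := by
      have h10 := congrArg (·⁻¹) h8
      simp only [inv_inv, mul_inv_rev] at h10
      rw [← h10]
      group
    rw [h9]
    group

end main

end Pool.Agent.PP.T3.H62
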